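import Pool.Agent.H39.MonoLoc.S1

/-!
# The motivic monodromy conjecture: the global form is equivalent to the local form with supports

Let `k ⊆ ℂ` be a field. The following are equivalent (the sign of the exponents `a` being dropped
in both):

* Q1 for all nonconstant polynomials over `k`;
* for all polynomials `f`, `g` over `k` and every constructible set `W` contained in `g ≠ 0`, the
  motivic zeta function of `f` with support `W` (only arcs with origin in `W` count) lies in
  `M_k[T, 1/(1 - L^a T^b)]`, `(a,b) ∈ S`, for a finite set `S` such that all `exp(2πi a/b)` are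
  monodromy eigenvalues of `f` at points of `f = 0`, `g ≠ 0`.

Idea: `F = f + v (g u - 1)` is a polynomial whose arcs over `g u = 1` are those of `f + v w` over
`g ≠ 0`; the zeta function of `f` over `g ≠ 0` is obtained from those of `F` and `F + u' v'`, and
the Bernstein-Sato polynomial of `F` divides `(s+1) b(s+1)`, `b` the one of `f` over `g ≠ 0`.
-/

set_option autoImplicit false

namespace Pool.Agent.H39.Old.LocalFromGlobal

open MvPolynomial Pool.Agent.H39.MonoR Pool.Agent.H39.MonoLoc

theorem result (k : Type) [Field k] [Algebra k ℂ] :
    (∀ (n : ℕ) (f : MvPolynomial (Fin n) k), f.totalDegree ≠ 0 → MC' k f) ↔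
    (∀ (n : ℕ) (f g : MvPolynomial (Fin n) k) (W : Set (Fin n → ℂ)), IsCons k W →
      (∀ x ∈ W, aeval x g ≠ 0) → Loc k f g W) := by
  constructor
  · intro H n f g W hW hWg
    exact Loc_of_global H f g hW hWg
  · intro H n f _
    exact MC'_of_Loc (H n f 1 Set.univ IsCons.univ (by simp))

end Pool.Agent.H39.Old.LocalFromGlobal
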